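import Mathlib
import Pool.Agent.H15.WE1
set_option autoImplicit false

namespace Pool.Agent.Results.MP_0b62d6_lc.Converse

open Cardinal Pool.Agent.H15.WE

universe u

theorem result (m : Cardinal.{u}) (hm : ℵ₀ ≤ m) (A' : Type u) [BooleanAlgebra A']
    (hA : IsMAlg m A') (hE : WeakExt m A') : WeakDist m A' :=
  main hm A' hA hE

end Pool.Agent.Results.MP_0b62d6_lc.Converse
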